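import Pool.Agent.H10.FEX.Stmts
import Pool.Agent.H18.FEW.ONE

/-!
# FEX, module ON2: triples with a common good pair `(e, M)`
-/

set_option autoImplicit false

namespace Pool.FEX

open Finset Pool.Agent.H98.ABCR Pool.SHA Pool.FEW

namespace On2Aux

/-- the index type -/
abbrev Ix (m k : ℕ) : Type := (Fin 3 × Fin m) ⊕ Fin k

/-- the data of one triple -/
structure Dat (m k : ℕ) (Y : ℝ) (v : ℕ × ℕ) (p x : Ix m k → ℕ) (tt : Ix m k → Fin 3)
    (i0 : Fin 3) : Prop where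
  co : ∀ i, coord v i = ∏ j ∈ univ.filter (fun j => tt j = i), p j ^ x j
  ra : ∀ i, rad (coord v i) = ∏ j ∈ univ.filter (fun j => tt j = i), p j
  rr : RR v = ∏ j, p j
  pf : ∀ j, p j ≠ 1 → ∃ q ∈ (nn v).primeFactors, x j = (nn v).factorization q
  pr : ∀ b, p (Sum.inr b) = 1 ∨ (p (Sum.inr b)).Prime
  yy : (rad (coord v i0) : ℝ) ≤ Y

lemma rad_pos (n : ℕ) : 0 < rad n := by
  unfold rad
  exact Finset.prod_pos fun p hp => (Nat.prime_of_mem_primeFactors hp).pos

lemma rad_dvd (n : ℕ) : rad n ∣ n := by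
  unfold rad
  exact Nat.prod_primeFactors_dvd n

lemma Dat.one_le {m k : ℕ} {Y : ℝ} {v : ℕ × ℕ} {p x : Ix m k → ℕ} {tt : Ix m k → Fin 3}
    {i0 : Fin 3} (h : Dat m k Y v p x tt i0) (j : Ix m k) : 1 ≤ p j := by
  have h1 : ∏ j, p j ≠ 0 := by
    rw [← h.rr]
    exact (rad_pos _).ne'
  exact Nat.one_le_iff_ne_zero.mpr (Finset.prod_ne_zero_iff.mp h1 j (Finset.mem_univ j))

lemma Dat.dvd {m k : ℕ} {Y : ℝ} {v : ℕ × ℕ} {p x : Ix m k → ℕ} {tt : Ix m k → Fin 3}
    {i0 : Fin 3} (h : Dat m k Y v p x tt i0) (j : Ix m k) : p j ∣ nn v := by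
  have h1 : p j ∣ ∏ j, p j := Finset.dvd_prod_of_mem _ (Finset.mem_univ j)
  rw [← h.rr] at h1
  exact h1.trans (rad_dvd _)

/-- one class -/
lemma cls {Ct : ℝ} (hT : ∀ (R : ℕ) (F : Finset (ℕ × ℕ)),
    (∀ v ∈ F, IsTri v ∧ RR v = R) → (F.card : ℝ) ≤ Ct ^ (om R + 1)) {C' ε' : ℝ}
    (hom : ∀ R : ℕ, 1 ≤ R → Ct ^ (om R + 1) ≤ C' * (R : ℝ) ^ ε') (hε' : 0 ≤ ε') (hC' : 0 ≤ C')
    (hF : S_FC2)
    {m k e : ℕ} {M : Finset ℕ} {tt : Ix m k → Fin 3} {i0 : Fin 3} {X y σ Y Φ : ℝ}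
    (W : Ix m k → ℝ) (F : Finset (ℕ × ℕ)) (pf xf : ℕ × ℕ → Ix m k → ℕ) (r τ u : Ix m k → ℕ)
    (hW : ∀ j, 1 < W j) (h64 : 64 ≤ y ^ σ) (hGM : GM X y σ e M) (hΦ : 1 ≤ Φ) (hX : 1 ≤ X)
    (hnum : ∀ (j : Ix m k) (P t : ℕ) (U : Finset ℕ), 1 ≤ t → W j ≤ 2 * (P : ℝ) →
      (P : ℝ) ≤ X → (P : ℝ) ^ (t - 1) < X → (∀ q ∈ U, 0 < q ∧ q < 2 * P) →
      ((∃ b, j = Sum.inr b) → ∀ q ∈ U, q.Prime) →
      (2 * (P : ℝ)) ^ t ≤ X ^ 3 ∧ ∀ N : ℕ,
        (((Fintype.piFinset fun _ : Fin t => U).filter (fun w => ∏ i, w i = N)).card : ℝ) ≤ Φ)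
    (hv : ∀ v ∈ F, IsTri v ∧ (RR v : ℝ) ≤ X ∧ Gd y σ e M v ∧
      Dat m k Y v (pf v) (xf v) tt i0 ∧ (∀ j, xf v j % e = r j) ∧
      (∀ j, (if (pf v j : ℝ) < W j then pf v j else 0) = τ j) ∧
      (∀ j, (if (pf v j : ℝ) < W j then 0 else Nat.log 2 (pf v j)) = u j)) :
    (F.card : ℝ) ≤ C' * X ^ ε' * (4 * Φ * (∏ l ∈ M, (((l - 1) / e : ℕ) : ℝ)) ^ 2 *
      (y ^ σ) ^ M.card * Real.sqrt (X * Y)) := by
  classical
  have hg0 : 0 < y ^ σ := by linarith only [h64]
  have hX0 : 0 < X := by linarith only [hX]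
  have hXε : 0 ≤ C' * X ^ ε' := mul_nonneg hC' (Real.rpow_pos_of_pos hX0 _).le
  rcases F.eq_empty_or_nonempty with hemp | ⟨v0, hv0⟩
  · rw [hemp]
    simp only [Finset.card_empty, Nat.cast_zero]
    positivity
  set T : Finset (Ix m k → ℕ) := F.image pf with hTdef
  -- fibres
  have hfib : (F.card : ℝ) ≤ T.card * (C' * X ^ ε') := by
    apply OneAux.card_le_real F T pf (fun a ha => Finset.mem_image_of_mem _ ha)
    intro b _
    have h1 := hT (∏ j, b j) (F.filter (fun a => pf a = b)) (by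
      intro v hvm
      rw [Finset.mem_filter] at hvm
      obtain ⟨hvF, hvb⟩ := hvm
      obtain ⟨a1, -, -, a5, -⟩ := hv v hvF
      refine ⟨a1, ?_⟩
      rw [a5.rr, hvb])
    rcases (F.filter (fun a => pf a = b)).eq_empty_or_nonempty with he | ⟨v, hvm⟩
    · rw [he]
      simp only [Finset.card_empty, Nat.cast_zero]
      exact hXε
    · rw [Finset.mem_filter] at hvm
      obtain ⟨hvF, hvb⟩ := hvm
      obtain ⟨-, a2, -, a5, -⟩ := hv v hvF
      have h2 : ∏ j, b j = RR v := by rw [a5.rr, hvb]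
      rw [h2] at h1
      have h3 : 1 ≤ RR v := rad_pos _
      refine h1.trans ((hom _ h3).trans ?_)
      apply mul_le_mul_of_nonneg_left _ hC'
      exact Real.rpow_le_rpow (Nat.cast_nonneg _) a2 hε'
  -- the primes
  set J : Finset (Ix m k) := univ.filter (fun j => τ j = 0) with hJdef
  have hJ : ∀ j, j ∈ J ↔ τ j = 0 := by
    intro j
    rw [hJdef, Finset.mem_filter]
    exact ⟨fun h => h.2, fun h => ⟨Finset.mem_univ _, h⟩⟩
  have hbig : ∀ v ∈ F, ∀ j, τ j = 0 → W j ≤ (pf v j : ℝ) ∧ u j = Nat.log 2 (pf v j) := by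
    intro v hvF j hj
    obtain ⟨-, -, -, a5, -, a7, a8⟩ := hv v hvF
    have b7 := a7 j
    have b8 := a8 j
    by_cases hlt : (pf v j : ℝ) < W j
    · rw [if_pos hlt, hj] at b7
      have := a5.one_le j
      omega
    · rw [if_neg hlt] at b8
      exact ⟨not_lt.mp hlt, b8.symm⟩
  have hsmall : ∀ v ∈ F, ∀ j, τ j ≠ 0 → pf v j = τ j := by
    intro v hvF j hj
    obtain ⟨-, -, -, -, -, a7, -⟩ := hv v hvF
    have b7 := a7 j
    by_cases hlt : (pf v j : ℝ) < W j
    · rw [if_pos hlt] at b7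
      exact b7
    · rw [if_neg hlt] at b7
      exact absurd b7.symm hj
  have htwo : ∀ v ∈ F, ∀ j, τ j = 0 → 2 ≤ pf v j := by
    intro v hvF j hj
    obtain ⟨hwle, -⟩ := hbig v hvF j hj
    have h1 : (1 : ℝ) < (pf v j : ℝ) := (hW j).trans_le hwle
    exact_mod_cast h1
  have hPle : ∀ v ∈ F, ∀ j, τ j = 0 → 2 ^ u j ≤ pf v j ∧ pf v j < 2 * 2 ^ u j ∧ 2 ≤ 2 ^ u j := by
    intro v hvF j hj
    obtain ⟨-, hu⟩ := hbig v hvF j hj
    have hpr := htwo v hvF j hj
    have h0 : pf v j ≠ 0 := by omega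
    rw [hu]
    refine ⟨Nat.pow_log_le_self 2 h0, ?_, ?_⟩
    · have := Nat.lt_pow_succ_log_self (b := 2) (by norm_num) (pf v j)
      rw [pow_succ, mul_comm] at this
      exact this
    · have h1 : 1 ≤ Nat.log 2 (pf v j) := Nat.log_pos (by norm_num) hpr
      calc 2 = 2 ^ 1 := (pow_one 2).symm
        _ ≤ 2 ^ Nat.log 2 (pf v j) := Nat.pow_le_pow_right (by norm_num) h1
  have hnotM : ∀ v ∈ F, ∀ j, ∀ l ∈ M, ¬ l ∣ pf v j := by
    intro v hvF j l hl hdvd
    obtain ⟨-, -, a4, a5, -⟩ := hv v hvF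
    exact a4.2 l hl (hdvd.trans (a5.dvd j))
  obtain ⟨-, b2, b4, b5, b6, -, -⟩ := hv v0 hv0
  set U : Ix m k → Finset ℕ := fun j => if τ j = 0 then
    (Finset.range (2 * 2 ^ u j)).filter (fun q => 2 ^ u j ≤ q ∧ (∀ l ∈ M, ¬ l ∣ q) ∧
      ((∃ b, j = Sum.inr b) → q.Prime)) else {τ j} with hUdef
  have hU0 : ∀ j, τ j = 0 → ∀ q, q ∈ U j ↔ (q < 2 * 2 ^ u j ∧ 2 ^ u j ≤ q ∧ (∀ l ∈ M, ¬ l ∣ q) ∧
      ((∃ b, j = Sum.inr b) → q.Prime)) := by
    intro j hj q
    simp only [hUdef]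
    rw [if_pos hj, Finset.mem_filter, Finset.mem_range]
  have hU1 : ∀ j, τ j ≠ 0 → U j = {τ j} := by
    intro j hj
    simp only [hUdef]
    rw [if_neg hj]
  have hPX : ∏ j ∈ J, (((2 ^ u j : ℕ)) : ℝ) ≤ X := by
    have h1 : ∏ j ∈ J, (2 ^ u j : ℕ) ≤ ∏ j ∈ J, pf v0 j :=
      Finset.prod_le_prod' (fun j hj => (hPle v0 hv0 j ((hJ j).mp hj)).1)
    have h2 : ∏ j ∈ J, pf v0 j ≤ ∏ j, pf v0 j :=
      Finset.prod_le_prod_of_subset_of_one_le' (Finset.subset_univ J)
        (fun j _ _ => b5.one_le j)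
    have h3 : ((∏ j ∈ J, (2 ^ u j : ℕ) : ℕ) : ℝ) ≤ ((RR v0 : ℕ) : ℝ) := by
      rw [b5.rr]
      exact_mod_cast h1.trans h2
    rw [Nat.cast_prod] at h3
    exact h3.trans b2
  have hPY : ∏ j ∈ J.filter (fun j => tt j = i0), (((2 ^ u j : ℕ)) : ℝ) ≤ Y := by
    have h1 : ∏ j ∈ J.filter (fun j => tt j = i0), (2 ^ u j : ℕ) ≤
        ∏ j ∈ J.filter (fun j => tt j = i0), pf v0 j :=
      Finset.prod_le_prod' (fun j hj =>
        (hPle v0 hv0 j ((hJ j).mp (Finset.mem_filter.mp hj).1)).1)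
    have h2 : ∏ j ∈ J.filter (fun j => tt j = i0), pf v0 j ≤
        ∏ j ∈ univ.filter (fun j => tt j = i0), pf v0 j :=
      Finset.prod_le_prod_of_subset_of_one_le'
        (Finset.filter_subset_filter _ (Finset.subset_univ J)) (fun j _ _ => b5.one_le j)
    have h3 : ((∏ j ∈ J.filter (fun j => tt j = i0), (2 ^ u j : ℕ) : ℕ) : ℝ) ≤
        ((rad (coord v0 i0) : ℕ) : ℝ) := by
      rw [b5.ra i0]
      exact_mod_cast h1.trans h2
    rw [Nat.cast_prod] at h3
    exact h3.trans b5.yy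
  have hmain := hF (Ix m k) e M tt r (fun j => 2 ^ u j) U J T i0 (y ^ σ) Φ X hGM.e0
    (fun l hl => ⟨(hGM.pr l hl).1, (hGM.pr l hl).2.1⟩) (by linarith only [h64]) hΦ
    (by
      intro j hj
      have hj' : τ j ≠ 0 := fun h => hj ((hJ j).mpr h)
      rw [hU1 j hj', Finset.card_singleton])
    (by
      intro j hj
      have hj' := (hJ j).mp hj
      refine ⟨(hPle v0 hv0 j hj').2.2, ?_⟩
      intro q hq
      obtain ⟨c1, c2, -⟩ := (hU0 j hj' q).mp hq
      exact ⟨c2, c1⟩)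
    (by
      intro j q hq l hl hdvd
      by_cases hj : τ j = 0
      · obtain ⟨-, -, c4, -⟩ := (hU0 j hj q).mp hq
        exact c4 l hl hdvd
      · rw [hU1 j hj, Finset.mem_singleton] at hq
        rw [hq, ← hsmall v0 hv0 j hj] at hdvd
        exact hnotM v0 hv0 j l hl hdvd)
    (by
      intro j hj
      have hj' := (hJ j).mp hj
      have hne : pf v0 j ≠ 1 := by
        have := htwo v0 hv0 j hj'
        omega
      obtain ⟨q, d1, d2⟩ := b5.pf j hne
      have h1 : Nat.gcd (r j) e = Nat.gcd ((nn v0).factorization q) e := by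
        rw [← b6 j, ← d2, Nat.gcd_comm, Nat.gcd_comm (xf v0 j) e, Nat.gcd_rec e (xf v0 j),
          Nat.gcd_comm]
      rw [h1]
      exact (b4.1 _ d1).le)
    hPX
    (by
      intro j hj t ht htX
      have hj' := (hJ j).mp hj
      obtain ⟨f1, f2, f3⟩ := hPle v0 hv0 j hj'
      have g1 : W j ≤ 2 * ((2 ^ u j : ℕ) : ℝ) := by
        have h1 : (pf v0 j : ℝ) ≤ ((2 * 2 ^ u j : ℕ) : ℝ) := by exact_mod_cast f2.le
        have h2 := (hbig v0 hv0 j hj').1
        push_cast at h1 ⊢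
        linarith only [h1, h2]
      have g2 : ((2 ^ u j : ℕ) : ℝ) ≤ X := by
        have h1 : pf v0 j ≤ ∏ i, pf v0 i :=
          Finset.single_le_prod' (f := fun i => pf v0 i) (fun i _ => b5.one_le i)
            (Finset.mem_univ j)
        have h2 : ((2 ^ u j : ℕ) : ℝ) ≤ ((RR v0 : ℕ) : ℝ) := by
          rw [b5.rr]
          exact_mod_cast f1.trans h1
        exact h2.trans b2
      obtain ⟨k1, k2⟩ := hnum j (2 ^ u j) t (U j) ht g1 g2 htX
        (by
          intro q hq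
          obtain ⟨c1, c2, -⟩ := (hU0 j hj' q).mp hq
          exact ⟨by omega, c1⟩)
        (by
          intro hb q hq
          obtain ⟨-, -, -, c5⟩ := (hU0 j hj' q).mp hq
          exact c5 hb)
      exact ⟨k1.trans hGM.lo, k2⟩)
    (by
      intro p hp
      rw [hTdef, Finset.mem_image] at hp
      obtain ⟨v, hvF, rfl⟩ := hp
      obtain ⟨-, -, -, a5, a6, -, -⟩ := hv v hvF
      refine ⟨?_, xf v, ?_, ?_⟩
      · intro j
        by_cases hj : τ j = 0
        · obtain ⟨f1, f2, -⟩ := hPle v hvF j hj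
          refine (hU0 j hj _).mpr ⟨f2, f1, fun l hl => hnotM v hvF j l hl, ?_⟩
          rintro ⟨b, rfl⟩
          have h2 := htwo v hvF _ hj
          exact (a5.pr b).resolve_left (by omega)
        · rw [hU1 j hj, Finset.mem_singleton]
          exact hsmall v hvF j hj
      · intro j
        rw [← a6 j, Nat.mod_mod]
      · rw [← a5.co 0, ← a5.co 1, ← a5.co 2]
        rfl)
  have hlast : (T.card : ℝ) ≤ 4 * Φ * (∏ l ∈ M, (((l - 1) / e : ℕ) : ℝ)) ^ 2 *
      (y ^ σ) ^ M.card * Real.sqrt (X * Y) := by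
    refine hmain.trans ?_
    apply mul_le_mul_of_nonneg_left _ (by positivity)
    apply Real.sqrt_le_sqrt
    exact mul_le_mul_of_nonneg_left hPY (by linarith only [hX])
  calc (F.card : ℝ) ≤ T.card * (C' * X ^ ε') := hfib
    _ = C' * X ^ ε' * T.card := mul_comm _ _
    _ ≤ _ := mul_le_mul_of_nonneg_left hlast hXε

/-- the final numerical estimate; `L` stands for `log (X H)` -/
lemma fin {L C' A1 C1 y e w w0 u S Q D2 X ε η : ℝ} {m k : ℕ} (hm : 1 ≤ m) (hL : 16 ≤ L)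
    (hLC : C' ≤ L) (hC' : 1 ≤ C') (hA1 : 1 ≤ A1) (hC1 : 1 ≤ C1) (hy1 : 1 ≤ y) (hy : y ≤ L ^ A1)
    (he0 : 0 ≤ e) (he : e ≤ 8 * y) (hw0 : 0 ≤ w) (hw : w ≤ L ^ C1 + 1) (hu0 : 0 ≤ u)
    (hu : u ≤ 3 * L) (hv0 : 0 ≤ w0) (hv : w0 ≤ L * X ^ η) (hη : η * (3 * m) = ε / 8)
    (hX : 1 ≤ X) (hε : 0 < ε) (hS : 0 ≤ S) (hD2 : D2 ≤ X ^ (ε / 8) * y ^ (4 : ℝ))
    (_ : 0 ≤ D2)
    (hQ : Q = (3 * ((3 * (e * u)) ^ (3 * m + k) * (w0 ^ (3 * m) * w ^ k))) *
      (C' * X ^ (ε / 8) * (4 * X ^ (ε / 8) * D2 * S))) :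
    Q ≤ X ^ ε * S * L ^ ((7 * A1 + C1 + 19) * ((m : ℝ) + k)) := by
  have hL0 : 0 < L := by linarith only [hL]
  have hL1 : 1 ≤ L := by linarith only [hL]
  have hX0 : 0 < X := by linarith only [hX]
  have hm' : (1 : ℝ) ≤ m := by exact_mod_cast hm
  have hk0 : (0 : ℝ) ≤ k := Nat.cast_nonneg _
  have hy0 : 0 < y := by linarith only [hy1]
  have h1 : e ≤ L ^ (A1 + 1) := by
    rw [Real.rpow_add hL0, Real.rpow_one]
    have hp : 0 < L ^ A1 := Real.rpow_pos_of_pos hL0 _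
    nlinarith only [he, hy, hL, hp]
  have h2 : w ≤ L ^ (C1 + 1) := by
    rw [Real.rpow_add hL0, Real.rpow_one]
    have hp : 1 ≤ L ^ C1 := Real.one_le_rpow hL1 (by linarith only [hC1])
    nlinarith only [hw, hL, hp]
  have h3 : u ≤ L ^ (2 : ℝ) := by
    have : L ^ (2 : ℝ) = L * L := by
      rw [show (2 : ℝ) = ((2 : ℕ) : ℝ) by norm_num, Real.rpow_natCast]
      ring
    rw [this]
    nlinarith only [hu, hL]
  have h4 : 3 * (e * u) ≤ L ^ (A1 + 4) := by
    have : L ^ (A1 + 4) = L * (L ^ (A1 + 1) * L ^ (2 : ℝ)) := by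
      rw [← Real.rpow_add hL0]
      nth_rewrite 2 [← Real.rpow_one L]
      rw [← Real.rpow_add hL0]
      congr 1
      ring
    rw [this]
    apply mul_le_mul (by linarith only [hL]) _ (by positivity) hL0.le
    exact mul_le_mul h1 h3 hu0 (by positivity)
  have ha : (3 * (e * u)) ^ (3 * m + k) ≤ L ^ ((A1 + 4) * (3 * (m : ℝ) + k)) := by
    have e1 : (3 * (m : ℝ) + k) = ((3 * m + k : ℕ) : ℝ) := by push_cast; ring
    rw [e1, Real.rpow_mul hL0.le, Real.rpow_natCast]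
    exact pow_le_pow_left₀ (by positivity) h4 _
  have hb : w0 ^ (3 * m) ≤ L ^ (3 * (m : ℝ)) * X ^ (ε / 8) := by
    calc w0 ^ (3 * m) ≤ (L * X ^ η) ^ (3 * m) := pow_le_pow_left₀ hv0 hv _
      _ = L ^ (3 * m) * (X ^ η) ^ (3 * m) := mul_pow _ _ _
      _ = L ^ (3 * (m : ℝ)) * X ^ (ε / 8) := by
          have e1 : (3 * (m : ℝ)) = ((3 * m : ℕ) : ℝ) := by push_cast; ring
          rw [← hη, Real.rpow_mul hX0.le, e1, Real.rpow_natCast, Real.rpow_natCast]
  have hc : w ^ k ≤ L ^ ((C1 + 1) * (k : ℝ)) := by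
    rw [Real.rpow_mul hL0.le, Real.rpow_natCast]
    exact pow_le_pow_left₀ hw0 h2 k
  have hd : 3 * (4 * (C' * y ^ (4 : ℝ))) ≤ L ^ (3 : ℝ) * L ^ (4 * A1) := by
    have a1 : y ^ (4 : ℝ) ≤ L ^ (4 * A1) := by
      calc y ^ (4 : ℝ) ≤ (L ^ A1) ^ (4 : ℝ) := Real.rpow_le_rpow hy0.le hy (by norm_num)
        _ = L ^ (4 * A1) := by rw [← Real.rpow_mul hL0.le, mul_comm]
    have a2 : L ^ (3 : ℝ) = L * (L * L) := by
      rw [show (3 : ℝ) = ((3 : ℕ) : ℝ) by norm_num, Real.rpow_natCast]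
      ring
    have hp : 0 < L ^ (4 * A1) := Real.rpow_pos_of_pos hL0 _
    have hp' : 0 < y ^ (4 : ℝ) := Real.rpow_pos_of_pos hy0 _
    rw [a2]
    calc 3 * (4 * (C' * y ^ (4 : ℝ))) = (3 * (4 * C')) * y ^ (4 : ℝ) := by ring
      _ ≤ (L * (L * L)) * L ^ (4 * A1) := by
          apply mul_le_mul _ a1 hp'.le (by positivity)
          apply mul_le_mul (by linarith only [hL]) _ (by linarith only [hC']) hL0.le
          exact mul_le_mul (by linarith only [hL]) hLC (by linarith only [hC']) hL0.le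
  have hXX : X ^ (ε / 8) * X ^ (ε / 8) * (X ^ (ε / 8) * X ^ (ε / 8)) ≤ X ^ ε := by
    rw [← Real.rpow_add hX0, ← Real.rpow_add hX0]
    exact Real.rpow_le_rpow_of_exponent_le hX (by linarith only [hε])
  have hp1 : 0 < X ^ (ε / 8) := Real.rpow_pos_of_pos hX0 _
  have hpa : 0 ≤ (3 * (e * u)) ^ (3 * m + k) := by positivity
  have hpb : 0 ≤ w0 ^ (3 * m) := pow_nonneg hv0 _
  have hpc : 0 ≤ w ^ k := pow_nonneg hw0 _
  have hla : 0 < L ^ ((A1 + 4) * (3 * (m : ℝ) + k)) := Real.rpow_pos_of_pos hL0 _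
  have hlb : 0 < L ^ (3 * (m : ℝ)) := Real.rpow_pos_of_pos hL0 _
  have hlc : 0 < L ^ ((C1 + 1) * (k : ℝ)) := Real.rpow_pos_of_pos hL0 _
  have hl3 : 0 < L ^ (3 : ℝ) := Real.rpow_pos_of_pos hL0 _
  have hl4 : 0 < L ^ (4 * A1) := Real.rpow_pos_of_pos hL0 _
  have hy4 : 0 < y ^ (4 : ℝ) := Real.rpow_pos_of_pos hy0 _
  have hexp : L ^ ((A1 + 4) * (3 * (m : ℝ) + k)) * L ^ (3 * (m : ℝ)) *
      L ^ ((C1 + 1) * (k : ℝ)) * (L ^ (3 : ℝ) * L ^ (4 * A1)) ≤
      L ^ ((7 * A1 + C1 + 19) * ((m : ℝ) + k)) := by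
    rw [← Real.rpow_add hL0, ← Real.rpow_add hL0, ← Real.rpow_add hL0, ← Real.rpow_add hL0]
    apply Real.rpow_le_rpow_of_exponent_le hL1
    have q1 : 0 ≤ (4 * A1 + 3) * ((m : ℝ) - 1) :=
      mul_nonneg (by linarith only [hA1]) (by linarith only [hm'])
    have q2 : 0 ≤ (6 * A1 + 14) * (k : ℝ) := mul_nonneg (by linarith only [hA1]) hk0
    have q3 : 0 ≤ (C1 + 1) * (m : ℝ) :=
      mul_nonneg (by linarith only [hC1]) (by linarith only [hm'])
    nlinarith only [q1, q2, q3]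
  have hC0 : 0 ≤ C' := by linarith only [hC']
  rw [hQ]
  calc (3 * ((3 * (e * u)) ^ (3 * m + k) * (w0 ^ (3 * m) * w ^ k))) *
        (C' * X ^ (ε / 8) * (4 * X ^ (ε / 8) * D2 * S)) ≤
        (3 * (L ^ ((A1 + 4) * (3 * (m : ℝ) + k)) *
          ((L ^ (3 * (m : ℝ)) * X ^ (ε / 8)) * L ^ ((C1 + 1) * (k : ℝ))))) *
        (C' * X ^ (ε / 8) * (4 * X ^ (ε / 8) * (X ^ (ε / 8) * y ^ (4 : ℝ)) * S)) := by
        apply mul_le_mul
        · apply mul_le_mul_of_nonneg_left _ (by norm_num)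
          apply mul_le_mul ha _ (mul_nonneg hpb hpc) hla.le
          exact mul_le_mul hb hc hpc (by positivity)
        · apply mul_le_mul_of_nonneg_left _ (by positivity)
          apply mul_le_mul_of_nonneg_right _ hS
          exact mul_le_mul_of_nonneg_left hD2 (by positivity)
        · positivity
        · positivity
    _ = (X ^ (ε / 8) * X ^ (ε / 8) * (X ^ (ε / 8) * X ^ (ε / 8))) * S *
        (L ^ ((A1 + 4) * (3 * (m : ℝ) + k)) * L ^ (3 * (m : ℝ)) *
          L ^ ((C1 + 1) * (k : ℝ)) * (3 * (4 * (C' * y ^ (4 : ℝ))))) := by ring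
    _ ≤ X ^ ε * S * L ^ ((7 * A1 + C1 + 19) * ((m : ℝ) + k)) := by
        apply mul_le_mul (mul_le_mul_of_nonneg_right hXX hS) _ (by positivity) (by positivity)
        refine le_trans ?_ hexp
        exact mul_le_mul_of_nonneg_left hd (by positivity)

end On2Aux

open On2Aux in
/-- module ON2 -/
theorem on2_thm (hF : S_FC2) (hR : S_RE2) (hN : S_NUM) (hP : S_PFC) (hM : S_ML2) (hO : S_OMB)
    (hT : S_TOT) : S_ON2 := by
  classical
  intro ε hε
  obtain ⟨C1, X1, hC1, hX1, hnum⟩ := hN (ε / 8) (by positivity)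
  obtain ⟨c0, X2, hc0, hX2, hml⟩ := hM (ε / 8) (by positivity)
  obtain ⟨Ct, hCt, htot⟩ := hT
  obtain ⟨C', hC', hom⟩ := hO Ct (ε / 8) hCt (by positivity)
  set c : ℝ := min (c0 / 2) (1 / 2) with hcdef
  have hc : 0 < c := by positivity
  have hc1 : c ≤ c0 / 2 := min_le_left _ _
  have hc2 : c ≤ 1 / 2 := min_le_right _ _
  refine ⟨min (1 / 2) (ε / 200), c, by positivity, ?_, hc, ?_⟩
  · exact lt_of_le_of_lt (min_le_left _ _) (by norm_num)
  intro A1 hA1
  -- large `X`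
  obtain ⟨Z1, hZ1⟩ : ∃ Z : ℝ, ∀ z : ℝ, Z ≤ z → 48 / ε + 1 ≤ z ^ (c0 / 2) := by
    have h := (tendsto_rpow_atTop (show 0 < c0 / 2 by positivity)).eventually_ge_atTop
      (48 / ε + 1)
    obtain ⟨Z, hZ⟩ := Filter.eventually_atTop.mp h
    exact ⟨Z, hZ⟩
  obtain ⟨Z2, hZ2⟩ : ∃ Z : ℝ, ∀ z : ℝ, Z ≤ z → 48 / ε ≤ z ^ (1 / 2 : ℝ) := by
    have h := (tendsto_rpow_atTop (show (0 : ℝ) < 1 / 2 by norm_num)).eventually_ge_atTop
      (48 / ε)
    obtain ⟨Z, hZ⟩ := Filter.eventually_atTop.mp h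
    exact ⟨Z, hZ⟩
  refine ⟨7 * A1 + C1 + 19, max (max X1 X2) (Real.exp (max (max 16 C') (max Z1 Z2))),
    by linarith only [hA1, hC1], le_max_of_le_left (le_max_of_le_left hX1), ?_⟩
  intro X H Y y m k e M F hX hH hY hm hmc h64 hyX hyL hGM hv
  set σ : ℝ := min (1 / 2) (ε / 200) with hσdef
  have hσ0 : 0 < σ := by positivity
  have hσ1 : σ ≤ 1 / 2 := min_le_left _ _
  have hσ2 : σ ≤ ε / 200 := min_le_right _ _
  have hXX1 : X1 ≤ X := (le_max_left _ _).trans ((le_max_left _ _).trans hX)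
  have hXX2 : X2 ≤ X := (le_max_right _ _).trans ((le_max_left _ _).trans hX)
  have hXe : Real.exp (max (max 16 C') (max Z1 Z2)) ≤ X := (le_max_right _ _).trans hX
  have hX0 : 0 < X := (Real.exp_pos _).trans_le hXe
  have hlX : max (max 16 C') (max Z1 Z2) ≤ Real.log X := by
    rw [Real.le_log_iff_exp_le hX0]
    exact hXe
  have hlX16 : 16 ≤ Real.log X := (le_max_left _ _).trans ((le_max_left _ _).trans hlX)
  have hlXC : C' ≤ Real.log X := (le_max_right _ _).trans ((le_max_left _ _).trans hlX)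
  have hlZ1 : Z1 ≤ Real.log X := (le_max_left _ _).trans ((le_max_right _ _).trans hlX)
  have hlZ2 : Z2 ≤ Real.log X := (le_max_right _ _).trans ((le_max_right _ _).trans hlX)
  have hX1' : 1 ≤ X := by linarith only [hX1, hXX1]
  have hXH : X ≤ X * H := by nlinarith only [hX0, hH]
  have hlL : Real.log X ≤ Real.log (X * H) := Real.log_le_log hX0 hXH
  have hL16 : 16 ≤ Real.log (X * H) := hlX16.trans hlL
  have hLC : C' ≤ Real.log (X * H) := hlXC.trans hlL
  have hy1 : 1 ≤ y := by linarith only [hlX16, hyX]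
  set w : ℝ := Real.log X ^ C1 with hwdef
  have hw : 1 < w := by
    rw [hwdef]
    exact Real.one_lt_rpow (by linarith only [hlX16]) (by linarith only [hC1])
  have hm' : (1 : ℝ) ≤ m := by exact_mod_cast hm
  have hm0 : (0 : ℝ) < m := by linarith only [hm']
  set η : ℝ := ε / (24 * m) with hηdef
  have hη0 : 0 < η := by positivity
  have hη3 : η * (3 * m) = ε / 8 := by
    rw [hηdef]
    field_simp
    ring
  have hlX0 : 0 < Real.log X := by linarith only [hlX16]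
  -- `2 ≤ η log X`
  have hηL : 2 ≤ η * Real.log X := by
    have h1 : (m : ℝ) ≤ Real.log X ^ (1 / 2 : ℝ) :=
      hmc.trans (Real.rpow_le_rpow_of_exponent_le (by linarith only [hlX16]) hc2)
    have h2 : Real.log X = Real.log X ^ (1 / 2 : ℝ) * Real.log X ^ (1 / 2 : ℝ) := by
      rw [← Real.rpow_add hlX0]
      norm_num
    have h3 := hZ2 _ hlZ2
    have h4 : 48 / ε * m ≤ Real.log X := by
      rw [h2]
      exact mul_le_mul h3 h1 hm0.le (Real.rpow_pos_of_pos hlX0 _).le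
    have h5 : η * Real.log X = Real.log X * ε / (24 * m) := by rw [hηdef]; ring
    rw [h5, le_div_iff₀ (by positivity)]
    have h6 : 48 / ε * m * ε ≤ Real.log X * ε := mul_le_mul_of_nonneg_right h4 hε.le
    have h7 : 48 / ε * m * ε = 48 * m := by field_simp
    linarith only [h6, h7]
  set w0 : ℝ := X ^ η with hw0def
  have hlog2 : 0 < Real.log 2 := Real.log_pos (by norm_num)
  have hlog2' : Real.log 2 ≤ 1 := by
    have := Real.log_two_lt_d9
    linarith only [this]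
  have hw0 : 1 < w0 := by
    rw [hw0def]
    apply Real.one_lt_rpow _ hη0
    have : Real.exp 16 ≤ X := by
      rw [← Real.le_log_iff_exp_le hX0]
      exact hlX16
    have h2 : 16 + 1 ≤ Real.exp 16 := Real.add_one_le_exp 16
    linarith only [this, h2]
  set W : Ix m k → ℝ := fun j => match j with
    | Sum.inl _ => w0
    | Sum.inr _ => w with hWdef
  have hWl : ∀ a, W (Sum.inl a) = w0 := fun a => rfl
  have hWr : ∀ b, W (Sum.inr b) = w := fun b => rfl
  have hW1 : ∀ j, 1 < W j := by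
    rintro (a | b)
    · rw [hWl a]
      exact hw0
    · rw [hWr b]
      exact hw
  -- the data of the triples
  have hdat : ∀ v : ℕ × ℕ, ∃ (p x : Ix m k → ℕ) (tt : Ix m k → Fin 3) (i0 : Fin 3), v ∈ F →
      Dat m k Y v p x tt i0 := by
    intro v
    by_cases hvF : v ∈ F
    · obtain ⟨a1, a2, ⟨i0, hi0⟩, a4, a5⟩ := hv v hvF
      obtain ⟨p, x, tt, b1, b2, b3, b4, b5⟩ := hR m k v a1 a4
      exact ⟨p, x, tt, i0, fun _ => ⟨b1, b2, b3, b4, b5, hi0⟩⟩
    · exact ⟨fun _ => 0, fun _ => 0, fun _ => 0, 0, fun h => absurd h hvF⟩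
  choose pf xf tf idx hD using hdat
  set cst : Finset (Fin 3 × (Ix m k → Fin 3 × ℕ × ℕ × ℕ)) :=
    (univ : Finset (Fin 3)) ×ˢ (Fintype.piFinset (fun j : Ix m k => (univ : Finset (Fin 3)) ×ˢ
      (range e ×ˢ (range (⌊W j⌋₊ + 1) ×ˢ range (⌊Real.log X / Real.log 2⌋₊ + 1))))) with hcst
  set code : ℕ × ℕ → Fin 3 × (Ix m k → Fin 3 × ℕ × ℕ × ℕ) := fun v =>
    (idx v, fun j => (tf v j, xf v j % e, (if (pf v j : ℝ) < W j then pf v j else 0),
      (if (pf v j : ℝ) < W j then 0 else Nat.log 2 (pf v j)))) with hcode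
  have hmaps : ∀ v ∈ F, code v ∈ cst := by
    intro v hvF
    obtain ⟨a1, a2, -, -, -⟩ := hv v hvF
    have hd := hD v hvF
    rw [hcst, Finset.mem_product]
    refine ⟨Finset.mem_univ _, ?_⟩
    rw [Fintype.mem_piFinset]
    intro j
    simp only [hcode, Finset.mem_product, Finset.mem_univ, Finset.mem_range, true_and]
    refine ⟨Nat.mod_lt _ hGM.e0, ?_, ?_⟩
    · by_cases hlt : (pf v j : ℝ) < W j
      · rw [if_pos hlt, Nat.lt_succ_iff]
        exact Nat.le_floor hlt.le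
      · rw [if_neg hlt]
        exact Nat.succ_pos _
    · by_cases hlt : (pf v j : ℝ) < W j
      · rw [if_pos hlt]
        exact Nat.succ_pos _
      · rw [if_neg hlt, Nat.lt_succ_iff]
        apply Nat.le_floor
        rw [le_div_iff₀ hlog2]
        have h1 : pf v j ≤ ∏ i, pf v i :=
          Finset.single_le_prod' (f := fun i => pf v i) (fun i _ => hd.one_le i)
            (Finset.mem_univ j)
        have h2 : ((2 ^ Nat.log 2 (pf v j) : ℕ) : ℝ) ≤ ((RR v : ℕ) : ℝ) := by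
          rw [hd.rr]
          have h0 : pf v j ≠ 0 := by
            have := hd.one_le j
            omega
          exact_mod_cast (Nat.pow_log_le_self 2 h0).trans h1
        have h3 : ((2 ^ Nat.log 2 (pf v j) : ℕ) : ℝ) ≤ X := h2.trans a2
        rw [← Real.log_pow]
        apply Real.log_le_log (by positivity)
        push_cast at h3
        exact h3
  have hcl : ∀ cc ∈ cst, ((F.filter (fun v => code v = cc)).card : ℝ) ≤
      C' * X ^ (ε / 8) * (4 * X ^ (ε / 8) * (∏ l ∈ M, (((l - 1) / e : ℕ) : ℝ)) ^ 2 *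
        (y ^ σ) ^ M.card * Real.sqrt (X * Y)) := by
    rintro ⟨i0, cc⟩ -
    set tt : Ix m k → Fin 3 := fun j => (cc j).1 with htt
    have hsub : ∀ v ∈ F.filter (fun v => code v = (i0, cc)), v ∈ F ∧ idx v = i0 ∧
        (fun j => (tf v j, xf v j % e, (if (pf v j : ℝ) < W j then pf v j else 0),
          (if (pf v j : ℝ) < W j then 0 else Nat.log 2 (pf v j)))) = cc := by
      intro v hvm
      rw [Finset.mem_filter] at hvm
      obtain ⟨h1, h2⟩ := hvm
      simp only [hcode, Prod.mk.injEq] at h2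
      exact ⟨h1, h2.1, h2.2⟩
    refine cls (tt := tt) (i0 := i0) htot hom (by positivity) (by linarith only [hC']) hF W _ pf
      xf (fun j => (cc j).2.1) (fun j => (cc j).2.2.1) (fun j => (cc j).2.2.2) hW1 h64 hGM
      (Real.one_le_rpow hX1' (by positivity)) hX1' ?_ ?_
    · intro j P t U ht h1 h2 h3 h4 h5
      rcases j with a | b
      · rw [hWl a] at h1
        -- the number of factors is small
        have hP0 : (0 : ℝ) < P := by
          have := hw0.trans_le h1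
          linarith only [this]
        have htle : (t : ℝ) ≤ Real.log X ^ c0 := by
          have q1 : η * Real.log X - Real.log 2 ≤ Real.log P := by
            have q2 : Real.log w0 ≤ Real.log (2 * (P : ℝ)) :=
              Real.log_le_log (by linarith only [hw0]) h1
            rw [Real.log_mul (by norm_num) hP0.ne', hw0def, Real.log_rpow hX0] at q2
            linarith only [q2]
          have q3 : η * Real.log X / 2 ≤ Real.log P := by
            linarith only [q1, hηL, hlog2']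
          have q4 : ((t - 1 : ℕ) : ℝ) * Real.log P < Real.log X := by
            have := Real.log_lt_log (by positivity) h3
            rwa [Real.log_pow] at this
          have q5 : ((t - 1 : ℕ) : ℝ) = (t : ℝ) - 1 := by
            rw [Nat.cast_sub ht]
            norm_num
          rw [q5] at q4
          have q6 : ((t : ℝ) - 1) * (η * Real.log X / 2) < Real.log X := by
            refine lt_of_le_of_lt ?_ q4
            apply mul_le_mul_of_nonneg_left q3
            have : (1 : ℝ) ≤ t := by exact_mod_cast ht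
            linarith only [this]
          have q7 : ((t : ℝ) - 1) * η < 2 := by
            by_contra hcon
            push Not at hcon
            have : 2 * (Real.log X / 2) ≤ ((t : ℝ) - 1) * η * (Real.log X / 2) :=
              mul_le_mul_of_nonneg_right hcon (by positivity)
            nlinarith only [this, q6]
          have q8 : (t : ℝ) ≤ 48 / ε * m + 1 := by
            have r1 : ((t : ℝ) - 1) < 2 / η := by
              rw [lt_div_iff₀ hη0]
              exact q7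
            have r2 : 2 / η = 48 / ε * m := by
              rw [hηdef]
              field_simp
              ring
            linarith only [r1, r2]
          have q9 : (m : ℝ) ≤ Real.log X ^ (c0 / 2) :=
            hmc.trans (Real.rpow_le_rpow_of_exponent_le (by linarith only [hlX16]) hc1)
          have q10 : Real.log X ^ c0 = Real.log X ^ (c0 / 2) * Real.log X ^ (c0 / 2) := by
            rw [← Real.rpow_add hlX0]
            congr 1
            ring
          rw [q10]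
          have q11 := hZ1 _ hlZ1
          have q12 : 1 ≤ Real.log X ^ (c0 / 2) :=
            Real.one_le_rpow (by linarith only [hlX16]) (by positivity)
          have q13 : (48 / ε + 1) * Real.log X ^ (c0 / 2) ≤
              Real.log X ^ (c0 / 2) * Real.log X ^ (c0 / 2) :=
            mul_le_mul_of_nonneg_right q11 (by linarith only [q12])
          have q14 : 48 / ε * m ≤ 48 / ε * Real.log X ^ (c0 / 2) :=
            mul_le_mul_of_nonneg_left q9 (by positivity)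
          nlinarith only [q8, q13, q14, q12]
        exact hml X P t U hXX2 ht htle h2 h3 h4
      · rw [hWr b] at h1
        obtain ⟨g1, g2⟩ := hnum X P t hXX1 ht h1 h2 h3
        refine ⟨g1, fun N => ?_⟩
        have g3 := hP t U (h5 ⟨b, rfl⟩) N
        exact (Nat.cast_le.mpr g3).trans g2
    · intro v hvm
      obtain ⟨hvF, hi, hcc⟩ := hsub v hvm
      obtain ⟨a1, a2, -, a4, a5⟩ := hv v hvF
      have hd := hD v hvF
      rw [hi] at hd
      have htf : tf v = tt := by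
        funext j
        have := congrFun hcc j
        simp only [htt, ← this]
      rw [htf] at hd
      refine ⟨a1, a2, a5, hd, ?_, ?_, ?_⟩
      · intro j
        simp only [← hcc]
      · intro j
        simp only [← hcc]
      · intro j
        simp only [← hcc]
  have hcount := OneAux.card_le_real F cst code hmaps _ hcl
  have hcard : (cst.card : ℝ) = 3 * ((3 * ((e : ℝ) *
      ((⌊Real.log X / Real.log 2⌋₊ + 1 : ℕ) : ℝ))) ^ (3 * m + k) *
      ((((⌊w0⌋₊ + 1 : ℕ) : ℝ)) ^ (3 * m) * (((⌊w⌋₊ + 1 : ℕ) : ℝ)) ^ k)) := by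
    rw [hcst, Finset.card_product, Fintype.card_piFinset]
    simp only [Finset.card_product, Finset.card_univ, Fintype.card_fin, Finset.card_range,
      Fintype.prod_sum_type, hWl, hWr, Finset.prod_const, Fintype.card_prod]
    generalize ⌊Real.log X / Real.log 2⌋₊ + 1 = u
    generalize ⌊w0⌋₊ + 1 = u0
    generalize ⌊w⌋₊ + 1 = u1
    have hsp : ∀ (a b d : ℝ) (n : ℕ), (3 * (a * (b * d))) ^ n = (3 * (a * d)) ^ n * b ^ n := by
      intro a b d n
      rw [← mul_pow]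
      congr 1
      ring
    push_cast
    rw [hsp, hsp, pow_add]
    ring
  have hdg := OneAux.dg hGM h64 hy1 hσ0 hX0
  have hD2 : (∏ l ∈ M, (((l - 1) / e : ℕ) : ℝ)) ^ 2 * (y ^ σ) ^ M.card ≤
      X ^ (ε / 8) * y ^ (4 : ℝ) := by
    refine hdg.trans ?_
    apply mul_le_mul
    · exact Real.rpow_le_rpow_of_exponent_le hX1' (by linarith only [hσ2, hε])
    · exact Real.rpow_le_rpow_of_exponent_le hy1 (by linarith only [hσ1])
    · exact (Real.rpow_pos_of_pos (by linarith only [hy1]) _).le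
    · exact (Real.rpow_pos_of_pos hX0 _).le
  refine hcount.trans ?_
  refine fin (C' := C') (A1 := A1) (C1 := C1) (y := y) (e := e) (η := η)
    (w := ((⌊w⌋₊ + 1 : ℕ) : ℝ)) (w0 := ((⌊w0⌋₊ + 1 : ℕ) : ℝ))
    (u := ((⌊Real.log X / Real.log 2⌋₊ + 1 : ℕ) : ℝ))
    (D2 := (∏ l ∈ M, (((l - 1) / e : ℕ) : ℝ)) ^ 2 * (y ^ σ) ^ M.card) hm hL16 hLC hC' hA1 hC1
    hy1 hyL (Nat.cast_nonneg _) hGM.e8 (Nat.cast_nonneg _) ?_ (Nat.cast_nonneg _) ?_
    (Nat.cast_nonneg _) ?_ hη3 hX1' hε (Real.sqrt_nonneg _) hD2 (by positivity) ?_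
  · push_cast
    have h1 : (⌊w⌋₊ : ℝ) ≤ w := Nat.floor_le (by linarith only [hw])
    have h2 : w ≤ Real.log (X * H) ^ C1 :=
      Real.rpow_le_rpow (by linarith only [hlX16]) hlL (by linarith only [hC1])
    linarith only [h1, h2]
  · push_cast
    have h0 : 0 ≤ Real.log X / Real.log 2 := div_nonneg (by linarith only [hlX16]) hlog2.le
    have h1 : (⌊Real.log X / Real.log 2⌋₊ : ℝ) ≤ Real.log X / Real.log 2 := Nat.floor_le h0
    have h2 : Real.log X / Real.log 2 ≤ 2 * Real.log X := by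
      rw [div_le_iff₀ hlog2]
      have := Real.log_two_gt_d9
      nlinarith only [this, hlX16]
    linarith only [h1, h2, hlL, hlX16]
  · push_cast
    have h1 : (⌊w0⌋₊ : ℝ) ≤ w0 := Nat.floor_le (by linarith only [hw0])
    nlinarith only [h1, hw0, hL16]
  · rw [hcard]
    ring

end Pool.FEX
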